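import Pool.Agent.H4.TA.Targets

/-!
# Walks through a middle point (row SPT)
-/

set_option autoImplicit false

open Finset Pool.Agent.H43.TC Pool.Agent.H4.TA

namespace Pool.Agent.H70.TAS

variable {G : Type} [AddCommGroup G] {k : ℕ} (s : Fin k → G) (c : G → Bool) (b : Bool)

lemma walks_off (j : ℕ) (x : G) (h : c x ≠ b) : walks s c b j x = 0 := by
  cases j <;> simp [walks, h]

lemma walks_mul (i j : ℕ) (x : G) : walks s c b (i + 1) x * walks s c b j x =
    ∑ l : Fin k, (walks s c b i (x + s l) * walks s c b j x +
      walks s c b i (x - s l) * walks s c b j x) := by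
  by_cases h : c x = b
  · simp only [walks, h, if_true, sum_mul, add_mul]
  · simp [walks_off s c b j x h]

lemma walks_shift [Fintype G] (i j : ℕ) (a : G) :
    ∑ x, walks s c b i (x + a) * walks s c b j x = ∑ x, walks s c b j (x - a) * walks s c b i x := by
  rw [← Equiv.sum_comp (Equiv.subRight a)]
  refine sum_congr rfl fun x _ => ?_
  simp [mul_comm]

lemma walks_swap [Fintype G] (i j : ℕ) :
    ∑ x, walks s c b (i + 1) x * walks s c b j x = ∑ x, walks s c b i x * walks s c b (j + 1) x := by
  have h1 : ∀ i j : ℕ, ∑ x, walks s c b (i + 1) x * walks s c b j x =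
      ∑ l : Fin k, (∑ x, walks s c b i (x + s l) * walks s c b j x +
        ∑ x, walks s c b i (x - s l) * walks s c b j x) := by
    intro i j
    simp only [walks_mul, sum_add_distrib]
    rw [sum_comm]
    congr 1
    rw [sum_comm]
  have h2 : ∑ x, walks s c b i x * walks s c b (j + 1) x =
      ∑ x, walks s c b (j + 1) x * walks s c b i x := sum_congr rfl fun x _ => mul_comm _ _
  rw [h2, h1, h1]
  refine sum_congr rfl fun l _ => ?_
  rw [walks_shift s c b i j (s l), ← walks_shift s c b j i (s l), add_comm]

theorem pf_SPT : T_SPT := by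
  intro G _ _ k s c b i j
  induction i generalizing j with
  | zero =>
    refine sum_congr rfl fun x _ => ?_
    by_cases h : c x = b
    · simp [walks, h]
    · simp [walks_off s c b _ x h]
  | succ i ih =>
    rw [walks_swap, ← ih (j + 1)]
    refine sum_congr rfl fun x _ => ?_
    rw [show i + 1 + j = i + (j + 1) by omega]

end Pool.Agent.H70.TAS
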